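import Mathlib


namespace Pool.Agent.H.MP_505b57_nt

/-- critical orbit of `z^2 + c` -/
def orb {R : Type*} [CommRing R] (c : R) : ℕ → R
  | 0 => 0
  | n + 1 => (orb c n) ^ 2 + c

lemma orb_succ {R : Type*} [CommRing R] (c : R) (n : ℕ) : orb c (n + 1) = (orb c n) ^ 2 + c := rfl

lemma orb_add {R : Type*} [CommRing R] (c : R) (m n : ℕ) :
    orb c (m + n) = (fun z => z ^ 2 + c)^[n] (orb c m) := by
  induction n with
  | zero => rfl
  | succ n ih => rw [← add_assoc, orb_succ, Function.iterate_succ_apply', ← ih]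

lemma map_orb {R S : Type*} [CommRing R] [CommRing S] (φ : R →+* S) (c : R) (n : ℕ) :
    φ (orb c n) = orb (φ c) n := by
  induction n with
  | zero => simp [orb]
  | succ n ih => simp [orb_succ, ih]

lemma orb_shift {R : Type*} [CommRing R] (c : R) {m n : ℕ} (h : orb c m = orb c n) (k : ℕ) :
    orb c (m + k) = orb c (n + k) := by
  rw [orb_add, orb_add, h]

lemma orb_per {R : Type*} [CommRing R] (c : R) {m L : ℕ} (h : orb c (m + L) = orb c m)
    (j t : ℕ) (hj : m ≤ j) : orb c (j + t * L) = orb c j := by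
  induction t with
  | zero => simp
  | succ t ih =>
    have h1 := orb_shift c h (j - m + t * L)
    have e1 : m + L + (j - m + t * L) = j + (t + 1) * L := by rw [Nat.add_mul]; omega
    have e2 : m + (j - m + t * L) = j + t * L := by omega
    rw [e1, e2] at h1
    rw [h1, ih]

lemma two_case : ∀ y : ZMod 2, orb y 2 = 0 := by decide

variable {p : ℕ} [hp : Fact p.Prime]

lemma not_dvd_one : ¬ ((p : ℤ_[p]) ∣ 1) := by
  intro h
  have := (PadicInt.norm_lt_one_iff_dvd (1 : ℤ_[p])).2 h
  simp at this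

lemma p_ne : (p : ℤ_[p]) ≠ 0 := by exact_mod_cast hp.out.ne_zero

lemma one_add_ne (w : ℤ_[p]) : 1 + (p : ℤ_[p]) * w ≠ 0 := by
  intro h
  apply not_dvd_one (p := p)
  exact ⟨-w, by linear_combination h⟩

lemma key (B : Set ℤ_[p]) (x : ℤ_[p]) (hx : x ∈ B) (k : ℕ) (hk : 0 < k) :
    ∀ G : ℤ_[p] → ℤ_[p], (∀ u ∈ B, G u ∈ B) →
      (∀ u ∈ B, ∀ v ∈ B, ∃ w, G u - G v = (u - v) * (1 + (p : ℤ_[p]) ^ 2 * w)) →
      G^[k] x = x → G x = x := by
  induction k using Nat.strong_induction_on with
  | _ k ih =>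
    intro G hB hG hfix
    have hBi : ∀ i, ∀ u ∈ B, G^[i] u ∈ B := by
      intro i
      induction i with
      | zero => intro u hu; exact hu
      | succ i ihi => intro u hu; rw [Function.iterate_succ_apply']; exact hB _ (ihi u hu)
    have hGi : ∀ i, ∀ u ∈ B, ∀ v ∈ B, ∃ w,
        G^[i] u - G^[i] v = (u - v) * (1 + (p : ℤ_[p]) ^ 2 * w) := by
      intro i
      induction i with
      | zero => intro u _ v _; exact ⟨0, by simp⟩
      | succ i ihi =>
        intro u hu v hv
        obtain ⟨w, hw⟩ := ihi u hu v hv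
        obtain ⟨w', hw'⟩ := hG _ (hBi i u hu) _ (hBi i v hv)
        refine ⟨w + w' + (p : ℤ_[p]) ^ 2 * w * w', ?_⟩
        rw [Function.iterate_succ_apply', Function.iterate_succ_apply', hw', hw]
        ring
    have hsum : ∀ i : ℕ, ∃ w, G^[i] x - x = (G x - x) * (i + (p : ℤ_[p]) ^ 2 * w) := by
      intro i
      induction i with
      | zero => exact ⟨0, by simp⟩
      | succ i ihi =>
        obtain ⟨w, hw⟩ := ihi
        obtain ⟨w', hw'⟩ := hGi i _ (hB x hx) x hx
        refine ⟨w + w', ?_⟩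
        rw [Function.iterate_succ_apply]
        push_cast
        linear_combination hw + hw'
    by_cases hpk : p ∣ k
    · obtain ⟨k', rfl⟩ := hpk
      have hk' : 0 < k' := Nat.pos_of_mul_pos_left hk |> fun h => by
        rcases Nat.eq_zero_or_pos k' with h0 | h0
        · simp [h0] at hk
        · exact h0
      have hlt : k' < p * k' := by
        have := hp.out.two_le
        nlinarith
      have h1 : G^[p] x = x := by
        apply ih k' hlt hk' (G^[p]) (hBi p) (hGi p)
        rw [← Function.iterate_mul]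
        exact hfix
      obtain ⟨w, hw⟩ := hsum p
      rw [h1, sub_self] at hw
      have h2 : (G x - x) * ((p : ℤ_[p]) * (1 + p * w)) = 0 := by linear_combination -hw
      rcases mul_eq_zero.1 h2 with h | h
      · exact sub_eq_zero.1 h
      · rcases mul_eq_zero.1 h with h | h
        · exact absurd h p_ne
        · exact absurd h (one_add_ne w)
    · obtain ⟨w, hw⟩ := hsum k
      rw [hfix, sub_self] at hw
      rcases mul_eq_zero.1 hw.symm with h | h
      · exact sub_eq_zero.1 h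
      · exfalso
        apply hpk
        have h3 : (p : ℤ_[p]) ^ 1 ∣ ((k : ℤ) : ℤ_[p]) := ⟨-(p * w), by
          push_cast; linear_combination h⟩
        have := (PadicInt.pow_p_dvd_int_iff 1 (k : ℤ)).1 h3
        rw [pow_one] at this
        exact_mod_cast this

lemma caseA (c : ℤ_[p]) (hu : ∀ n, IsUnit (2 * orb c (n + 1))) (m0 L : ℕ) (hL : 0 < L)
    (hper : orb c (m0 + L) = orb c m0) :
    ∃ m N, m ≤ p ^ 4 + 1 ∧ 0 < N ∧ N ≤ p ^ 4 + 1 ∧ orb c (m + N) = orb c m := by
  haveI : NeZero (p ^ 2) := ⟨pow_ne_zero _ hp.out.ne_zero⟩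
  set π : ℤ_[p] →+* ZMod (p ^ 2) := PadicInt.toZModPow 2 with hπ
  have hker : ∀ u : ℤ_[p], π u = 0 → (p : ℤ_[p]) ^ 2 ∣ u := by
    intro u h
    have : u ∈ RingHom.ker π := h
    rw [hπ, PadicInt.ker_toZModPow, Ideal.mem_span_singleton] at this
    exact this
  let T : ℕ → ZMod (p ^ 2) := fun n => ∏ j ∈ Finset.range n, (2 * π (orb c (j + 1)))
  have hcard : Fintype.card (ZMod (p ^ 2) × ZMod (p ^ 2)) < Fintype.card (Fin (p ^ 4 + 1)) := by
    simp only [Fintype.card_prod, ZMod.card, Fintype.card_fin]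
    have : p ^ 2 * p ^ 2 = p ^ 4 := by ring
    omega
  have hij : ∃ i j : ℕ, i < j ∧ j ≤ p ^ 4 ∧ π (orb c (i + 1)) = π (orb c (j + 1)) ∧ T i = T j := by
    obtain ⟨i, j, hne, h⟩ := Fintype.exists_ne_map_eq_of_card_lt
      (fun n : Fin (p ^ 4 + 1) => (π (orb c (n.1 + 1)), T n.1)) hcard
    have h1 := congrArg Prod.fst h
    have h2 := congrArg Prod.snd h
    rcases lt_or_gt_of_ne (Fin.val_ne_of_ne hne) with h3 | h3
    · exact ⟨i, j, h3, by have := j.2; omega, h1, h2⟩
    · exact ⟨j, i, h3, by have := i.2; omega, h1.symm, h2.symm⟩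
  obtain ⟨i, j, hij, hj, h1, h2⟩ := hij
  obtain ⟨N, rfl⟩ : ∃ N, j = i + N := ⟨j - i, by omega⟩
  have hN : 0 < N := by omega
  have hTu : IsUnit (T i) := by
    apply IsUnit.prod_iff.2
    intro k _
    have := (hu k).map π
    simpa [map_ofNat] using this
  have hprod : ∏ k ∈ Finset.range N, (2 * π (orb c (i + k + 1))) = 1 := by
    have h3 : T (i + N) = T i * ∏ k ∈ Finset.range N, (2 * π (orb c (i + k + 1))) :=
      Finset.prod_range_add _ _ _
    rw [h3] at h2
    exact (hTu.mul_left_cancel (by rw [mul_one]; exact h2)).symm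
  set f : ℤ_[p] → ℤ_[p] := fun z => z ^ 2 + c with hf
  set x := orb c (i + 1) with hx
  let B : Set ℤ_[p] := {u | π u = π x}
  have hit : ∀ k, ∀ u ∈ B, π (f^[k] u) = π (orb c (i + k + 1)) := by
    intro k
    induction k with
    | zero => intro u hu; exact hu
    | succ k ih =>
      intro u hu
      rw [Function.iterate_succ_apply', ← add_assoc, orb_succ]
      simp only [hf, map_add, map_pow]
      rw [ih u hu]
  have hdiff : ∀ k, ∀ u ∈ B, ∀ v ∈ B, ∃ q, f^[k] u - f^[k] v = (u - v) * q ∧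
      π q = ∏ t ∈ Finset.range k, (2 * π (orb c (i + t + 1))) := by
    intro k
    induction k with
    | zero => intro u _ v _; exact ⟨1, by simp, by simp⟩
    | succ k ih =>
      intro u hu v hv
      obtain ⟨q, hq1, hq2⟩ := ih u hu v hv
      refine ⟨q * (f^[k] u + f^[k] v), ?_, ?_⟩
      · rw [Function.iterate_succ_apply', Function.iterate_succ_apply']
        simp only [hf] at hq1 ⊢
        linear_combination ((fun z => z ^ 2 + c)^[k] u + (fun z => z ^ 2 + c)^[k] v) * hq1
      · rw [Finset.prod_range_succ, map_mul, map_add, hq2, hit k u hu, hit k v hv]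
        ring
  have hB : ∀ u ∈ B, f^[N] u ∈ B := by
    intro u hu
    show π (f^[N] u) = π x
    rw [hit N u hu, h1]
  have hG : ∀ u ∈ B, ∀ v ∈ B, ∃ w,
      f^[N] u - f^[N] v = (u - v) * (1 + (p : ℤ_[p]) ^ 2 * w) := by
    intro u hu v hv
    obtain ⟨q, hq1, hq2⟩ := hdiff N u hu v hv
    rw [hprod] at hq2
    obtain ⟨w, hw⟩ := hker (q - 1) (by rw [map_sub, hq2, map_one, sub_self])
    exact ⟨w, by rw [hq1, ← hw]; ring⟩
  have hBi : ∀ t, ∀ u ∈ B, (f^[N])^[t] u ∈ B := by
    intro t
    induction t with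
    | zero => intro u hu; exact hu
    | succ t iht => intro u hu; rw [Function.iterate_succ_apply']; exact hB _ (iht u hu)
  have hinj : ∀ t, ∀ u ∈ B, ∀ v ∈ B, (f^[N])^[t] u = (f^[N])^[t] v → u = v := by
    intro t
    induction t with
    | zero => intro u _ v _ h; exact h
    | succ t iht =>
      intro u hu v hv h
      rw [Function.iterate_succ_apply', Function.iterate_succ_apply'] at h
      obtain ⟨w, hw⟩ := hG _ (hBi t u hu) _ (hBi t v hv)
      rw [h, sub_self] at hw
      rcases mul_eq_zero.1 hw.symm with h' | h'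
      · exact iht u hu v hv (sub_eq_zero.1 h')
      · exact absurd (by rw [← h']; ring) (one_add_ne ((p : ℤ_[p]) * w))
  have hxB : x ∈ B := rfl
  have hfix : (f^[N])^[L] x = x := by
    apply hinj m0 _ (hBi L x hxB) _ hxB
    rw [← Function.iterate_add_apply, ← Function.iterate_mul, ← Function.iterate_mul, hx,
      ← orb_add, ← orb_add]
    have := orb_per c hper (i + 1 + N * m0) N (by nlinarith)
    rw [← this]
    congr 1
    ring
  have := key B x hxB L hL (f^[N]) hB hG hfix
  refine ⟨i + 1, N, by omega, hN, by omega, ?_⟩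
  rw [orb_add]
  exact this

lemma not_sq_dvd (u : ℤ_[p]) (hu : ¬ (p : ℤ_[p]) ∣ u) : ¬ (p : ℤ_[p]) ^ 2 ∣ 2 * u := by
  intro h
  have hU : IsUnit u := by
    by_contra h1
    exact hu ((PadicInt.norm_lt_one_iff_dvd u).1 (PadicInt.not_isUnit_iff.1 h1))
  have h2 : (p : ℤ_[p]) ^ 2 ∣ ((2 : ℤ) : ℤ_[p]) := by
    push_cast
    exact (hU.dvd_mul_right).1 h
  have h3 := Int.le_of_dvd (by norm_num) ((PadicInt.pow_p_dvd_int_iff 2 2).1 h2)
  have h4 : (2 : ℤ) ≤ p := by exact_mod_cast hp.out.two_le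
  nlinarith

lemma caseB (c : ℤ_[p]) (hex : ∃ a, 0 < a ∧ (p : ℤ_[p]) ∣ orb c a) (m0 L : ℕ) (hL : 0 < L)
    (hper : orb c (m0 + L) = orb c m0) :
    ∃ m N, m ≤ p ^ 4 + 1 ∧ 0 < N ∧ N ≤ p ^ 4 + 1 ∧ orb c (m + N) = orb c m := by
  classical
  set a := Nat.find hex with ha
  obtain ⟨ha0, hpa⟩ : 0 < a ∧ (p : ℤ_[p]) ∣ orb c a := Nat.find_spec hex
  have hmin : ∀ b, 0 < b → (p : ℤ_[p]) ∣ orb c b → a ≤ b := fun b h1 h2 =>
    Nat.find_min' hex ⟨h1, h2⟩
  set π : ℤ_[p] →+* ZMod p := PadicInt.toZMod with hπ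
  have hker : ∀ u : ℤ_[p], π u = 0 ↔ (p : ℤ_[p]) ∣ u := by
    intro u
    rw [← RingHom.mem_ker, hπ, PadicInt.ker_toZMod, PadicInt.maximalIdeal_eq_span_p,
      Ideal.mem_span_singleton]
  have hy : ∀ n, orb (π c) n = 0 ↔ (p : ℤ_[p]) ∣ orb c n := by
    intro n
    rw [← map_orb, hker]
  have hya : orb (π c) (0 + a) = orb (π c) 0 := by
    rw [zero_add, (hy a).2 hpa]; rfl
  have hap : a ≤ p := by
    by_contra hlt
    push Not at hlt
    have hcard : Fintype.card (ZMod p) < Fintype.card (Fin (p + 1)) := by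
      simp [ZMod.card]
    have hij : ∃ i j : ℕ, i < j ∧ j ≤ p ∧ orb (π c) i = orb (π c) j := by
      obtain ⟨i, j, hne, h⟩ := Fintype.exists_ne_map_eq_of_card_lt
        (fun n : Fin (p + 1) => orb (π c) n.1) hcard
      rcases lt_or_gt_of_ne (Fin.val_ne_of_ne hne) with h3 | h3
      · exact ⟨i, j, h3, by have := j.2; omega, h⟩
      · exact ⟨j, i, h3, by have := i.2; omega, h.symm⟩
    obtain ⟨i, j, hij, hj, h⟩ := hij
    have h1 := orb_shift (π c) h (a - j)
    have e1 : j + (a - j) = a := by omega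
    rw [e1, (hy a).2 hpa] at h1
    have := hmin _ (by omega) ((hy _).1 h1)
    omega
  have hmul : ∀ t, (p : ℤ_[p]) ∣ orb c (t * a) := by
    intro t
    apply (hy _).1
    have := orb_per (π c) hya 0 t le_rfl
    rw [zero_add] at this
    rw [this]; rfl
  have hdvd : ∀ n, (p : ℤ_[p]) ∣ orb c n → a ∣ n := by
    intro n hn
    have h1 := orb_per (π c) hya (n % a) (n / a) (Nat.zero_le _)
    have e1 : n % a + n / a * a = n := by rw [mul_comm]; exact Nat.mod_add_div n a
    rw [e1, (hy n).2 hn] at h1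
    by_contra h2
    have h3 : 0 < n % a := Nat.pos_of_ne_zero (fun h => h2 (Nat.dvd_of_mod_eq_zero h))
    have h4 := hmin _ h3 ((hy _).1 h1.symm)
    have := Nat.mod_lt n ha0
    omega
  let e : ℕ → ℤ_[p] := fun n => orb c (n + a) - orb c n
  have he : ∀ n, e (n + 1) = e n * (orb c (n + a) + orb c n) := by
    intro n
    simp only [e]
    rw [show n + 1 + a = (n + a) + 1 by ring, orb_succ, orb_succ]
    ring
  have hed : ∀ n k, e n ∣ e (n + k) := by
    intro n k
    induction k with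
    | zero => exact dvd_rfl
    | succ k ih => rw [← add_assoc, he]; exact ih.mul_right _
  have hed' : ∀ n k, n ≤ k → e n ∣ e k := by
    intro n k h
    obtain ⟨d, rfl⟩ := Nat.exists_eq_add_of_le h
    exact hed n d
  have hstep : ∀ s, (p : ℤ_[p]) * e (s * a) ∣ e (s * a + 1) := by
    intro s
    rw [he, mul_comm (p : ℤ_[p])]
    apply mul_dvd_mul_left
    apply dvd_add _ (hmul s)
    have := hmul (s + 1)
    rwa [Nat.add_mul, one_mul] at this
  have he1 : e 1 = (orb c a) ^ 2 := by
    rw [he 0]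
    simp only [e, zero_add]
    rw [show orb c 0 = 0 from rfl]
    ring
  have hz : e (m0 * a) = 0 := by
    have h1 : e (m0 * a + a * L) = e (m0 * a) := by
      simp only [e]
      have h2 := orb_per c hper (m0 * a) a (by nlinarith)
      have h3 := orb_per c hper (m0 * a + a) a (by nlinarith)
      rw [h2, show m0 * a + a * L + a = m0 * a + a + a * L by ring, h3]
    have h2 : (p : ℤ_[p]) * e (m0 * a) ∣ e (m0 * a) := by
      have := (hstep m0).trans (hed' (m0 * a + 1) (m0 * a + a * L) (by nlinarith))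
      rwa [h1] at this
    obtain ⟨w, hw⟩ := h2
    have h3 : e (m0 * a) * (1 + (p : ℤ_[p]) * (-w)) = 0 := by linear_combination hw
    rcases mul_eq_zero.1 h3 with h | h
    · exact h
    · exact absurd h (one_add_ne _)
  have hbig : ∀ n, 2 * a + 1 ≤ n → (p : ℤ_[p]) ^ 2 * (orb c a) ^ 2 ∣ e n := by
    intro n hn
    have h1 : (p : ℤ_[p]) * (orb c a) ^ 2 ∣ e (1 * a + 1) := by
      refine dvd_trans ?_ (hstep 1)
      apply mul_dvd_mul_left
      rw [← he1]
      exact hed' _ _ (by omega)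
    have h2 : (p : ℤ_[p]) * ((p : ℤ_[p]) * (orb c a) ^ 2) ∣ e (2 * a + 1) := by
      refine dvd_trans ?_ (hstep 2)
      apply mul_dvd_mul_left
      exact h1.trans (hed' _ _ (by omega))
    have h3 := h2.trans (hed' _ _ hn)
    rwa [← mul_assoc, ← pow_two] at h3
  have hunit : ∀ t, ∃ w, orb c ((t + 1) * a) = orb c a * (1 + (p : ℤ_[p]) * w) := by
    intro t
    induction t with
    | zero => exact ⟨0, by simp⟩
    | succ t ih =>
      obtain ⟨w, hw⟩ := ih
      have h1 : (orb c a) ^ 2 ∣ e ((t + 1) * a) := by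
        rw [← he1]
        exact hed' _ _ (by nlinarith)
      obtain ⟨w1, hw1⟩ := h1
      obtain ⟨w2, hw2⟩ := hpa
      refine ⟨w + w2 * w1, ?_⟩
      simp only [e] at hw1
      rw [show (t + 1 + 1) * a = (t + 1) * a + a by ring]
      linear_combination hw1 + hw + orb c a * w1 * hw2
  have hdown : ∀ n, 2 * a + 1 ≤ n → e (n + 1) = 0 → e n = 0 := by
    intro n hn h
    by_contra hne
    rw [he] at h
    have h1 : orb c (n + a) + orb c n = 0 := (mul_eq_zero.1 h).resolve_left hne
    have h2 : e n = -(2 * orb c n) := by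
      simp only [e]; linear_combination h1
    have h3 := hbig n hn
    have hxa : orb c a ≠ 0 := by
      intro h0
      rw [h0] at h3
      apply hne
      simpa using h3
    rw [h2, dvd_neg] at h3
    by_cases hpn : (p : ℤ_[p]) ∣ orb c n
    · obtain ⟨t, ht⟩ := hdvd n hpn
      obtain ⟨t', rfl⟩ : ∃ t', t = t' + 1 := by
        rcases t with _ | t'
        · omega
        · exact ⟨t', rfl⟩
      obtain ⟨w, hw⟩ := hunit t'
      rw [mul_comm (t' + 1) a, ← ht] at hw
      rw [hw] at h3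
      apply not_sq_dvd (1 + (p : ℤ_[p]) * w)
      · intro h5
        apply not_dvd_one (p := p)
        exact (dvd_add_left (dvd_mul_right _ _)).1 h5
      · obtain ⟨z, hz⟩ := h3
        refine ⟨orb c a * z, ?_⟩
        apply mul_left_cancel₀ hxa
        linear_combination hz
    · exact not_sq_dvd _ hpn ((dvd_mul_right _ _).trans h3)
  have hfin : ∀ k, e (2 * a + 1 + k) = 0 → e (2 * a + 1) = 0 := by
    intro k
    induction k with
    | zero => exact id
    | succ k ih => intro h; exact ih (hdown _ (by omega) h)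
  have h0 : e (2 * a + 1) = 0 := by
    apply hfin (m0 * a)
    have := hed' (m0 * a) (2 * a + 1 + m0 * a) (by omega)
    rw [hz] at this
    exact zero_dvd_iff.1 this
  have hp2 := hp.out.two_le
  have hp4 : 2 * p ≤ p ^ 4 := by
    have : p ^ 4 = (p * p * p) * p := by ring
    rw [this]
    apply Nat.mul_le_mul_right
    nlinarith
  exact ⟨2 * a + 1, a, by omega, ha0, by omega, sub_eq_zero.1 h0⟩

lemma int_bound (c : ℤ_[p]) (m0 L : ℕ) (hL : 0 < L) (hper : orb c (m0 + L) = orb c m0) :
    ∃ m N, m ≤ p ^ 4 + 1 ∧ 0 < N ∧ N ≤ p ^ 4 + 1 ∧ orb c (m + N) = orb c m := by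
  by_cases hex : ∃ a, 0 < a ∧ (p : ℤ_[p]) ∣ orb c a
  · exact caseB c hex m0 L hL hper
  · push Not at hex
    apply caseA c _ m0 L hL hper
    intro n
    by_contra h1
    have h2 := (PadicInt.norm_lt_one_iff_dvd _).1 (PadicInt.not_isUnit_iff.1 h1)
    rcases (PadicInt.prime_p.dvd_or_dvd h2) with h | h
    · have h3 : (p : ℤ_[p]) ^ 1 ∣ ((2 : ℤ) : ℤ_[p]) := by simpa using h
      have h4 := Int.le_of_dvd (by norm_num) ((PadicInt.pow_p_dvd_int_iff 1 2).1 h3)
      have h5 := hp.out.two_le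
      have h6 : p = 2 := by
        rw [pow_one] at h4
        omega
      subst h6
      apply hex 2 (by norm_num)
      have h7 : ∀ u : ℤ_[2], PadicInt.toZMod u = 0 → ((2 : ℕ) : ℤ_[2]) ∣ u := by
        intro u hu
        rw [← RingHom.mem_ker, PadicInt.ker_toZMod, PadicInt.maximalIdeal_eq_span_p,
          Ideal.mem_span_singleton] at hu
        exact hu
      apply h7
      rw [map_orb]
      exact two_case _
    · exact hex _ (Nat.succ_pos n) h

lemma escape (c : ℚ_[p]) (hc : 1 < ‖c‖) : StrictMono (fun n => ‖orb c n‖) := by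
  have h1 : ∀ n, ‖c‖ ≤ ‖orb c (n + 1)‖ ∧ ‖orb c n‖ < ‖orb c (n + 1)‖ := by
    intro n
    induction n with
    | zero => simp [orb]; intro h; rw [h] at hc; norm_num at hc
    | succ n ih =>
      have h2 : ‖c‖ < ‖(orb c (n + 1)) ^ 2‖ := by
        rw [norm_pow]; nlinarith [ih.1]
      have h3 : ‖orb c (n + 1 + 1)‖ = ‖orb c (n + 1)‖ ^ 2 := by
        rw [orb_succ c (n + 1), Padic.add_eq_max_of_ne h2.ne', max_eq_left h2.le, norm_pow]
      rw [h3]
      constructor <;> nlinarith [ih.1]
  exact strictMono_nat_of_lt_succ (fun n => (h1 n).2)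

theorem finite_pcf : {c : ℚ_[p] | (Set.range (orb c)).Finite}.Finite := by
  have hfin : ∀ m N : ℕ, 0 < N → {c : ℚ_[p] | orb c (m + N) = orb c m}.Finite := by
    intro m N hN
    have hev : ∀ (c : ℚ_[p]) n, Polynomial.eval c (orb (Polynomial.X : Polynomial ℚ_[p]) n) =
        orb c n := by
      intro c n
      have := map_orb (Polynomial.evalRingHom c) (Polynomial.X : Polynomial ℚ_[p]) n
      simpa using this
    have hne : orb (Polynomial.X : Polynomial ℚ_[p]) (m + N) - orb Polynomial.X m ≠ 0 := by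
      intro h
      have h1 := congrArg (Polynomial.eval ((p : ℚ_[p])⁻¹)) h
      rw [Polynomial.eval_sub, hev, hev, Polynomial.eval_zero, sub_eq_zero] at h1
      have h2 : 1 < ‖((p : ℚ_[p])⁻¹)‖ := by
        rw [norm_inv, Padic.norm_p, inv_inv]
        exact_mod_cast hp.out.one_lt
      have h3 := escape _ h2 (show m < m + N by omega)
      simp only [h1, lt_irrefl] at h3
    refine (Polynomial.finite_setOf_isRoot hne).subset ?_
    intro c hc
    simp only [Set.mem_setOf_eq, Polynomial.IsRoot, Polynomial.eval_sub, hev] at hc ⊢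
    rw [hc, sub_self]
  refine Set.Finite.subset (s := ⋃ m ∈ Set.Iic (p ^ 4 + 1), ⋃ N ∈ Set.Icc 1 (p ^ 4 + 1),
    {c : ℚ_[p] | orb c (m + N) = orb c m}) ?_ ?_
  · refine (Set.finite_Iic _).biUnion (fun m _ => (Set.finite_Icc _ _).biUnion (fun N hN => ?_))
    exact hfin m N hN.1
  · intro c hc
    have hni : ¬ Function.Injective (orb c) := fun h => Set.infinite_range_of_injective h hc
    have hij : ∃ m0 L, 0 < L ∧ orb c (m0 + L) = orb c m0 := by
      unfold Function.Injective at hni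
      push Not at hni
      obtain ⟨i, j, h, hne⟩ := hni
      rcases lt_or_gt_of_ne hne with h3 | h3
      · exact ⟨i, j - i, by omega, by rw [show i + (j - i) = j by omega, h]⟩
      · exact ⟨j, i - j, by omega, by rw [show j + (i - j) = i by omega, h]⟩
    obtain ⟨m0, L, hL, hper⟩ := hij
    have hc1 : ‖c‖ ≤ 1 := by
      by_contra h
      push Not at h
      have h3 := escape _ h (show m0 < m0 + L by omega)
      simp only [hper, lt_irrefl] at h3
    let c' : ℤ_[p] := ⟨c, hc1⟩
    have hmap : ∀ n, ((orb c' n : ℤ_[p]) : ℚ_[p]) = orb c n := fun n =>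
      map_orb (PadicInt.Coe.ringHom) c' n
    obtain ⟨m, N, h1, h2, h3, h4⟩ := int_bound c' m0 L hL
      (Subtype.ext (by rw [hmap, hmap]; exact hper))
    simp only [Set.mem_iUnion, Set.mem_setOf_eq]
    refine ⟨m, h1, N, ⟨h2, h3⟩, ?_⟩
    rw [← hmap, ← hmap, h4]

end Pool.Agent.H.MP_505b57_nt
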